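import Pool.Agent.Helper20.RL.St1

/-!
# Project RL: module LGR (skew dyadic grids)
-/

set_option autoImplicit false

open MeasureTheory Set Filter Topology
open scoped ENNReal RealInnerProductSpace

namespace Pool.Agent.Helper4.RL

open Pool.Agent.Helper20.RG Pool.Agent.Helper20.RL
open Pool.Agent.Helper68.LM (Pl)

/-- the index of a cell -/
private noncomputable def idx (s : ℝ) (a b : ℤ) (z : Pl) : ℤ × ℤ :=
  (⌊z 0 / (2 : ℝ) ^ a⌋, ⌊pr s z / (2 : ℝ) ^ b⌋)

private theorem idx_meas (s : ℝ) (a b : ℤ) : Measurable (idx s a b) := by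
  unfold idx pr
  have h0 : Measurable fun z : Pl => z 0 := by fun_prop
  have h1 : Measurable fun z : Pl => z 1 := by fun_prop
  exact (Int.measurable_floor.comp (h0.div_const _)).prodMk
    (Int.measurable_floor.comp ((h1.sub (h0.const_mul s)).div_const _))

private theorem mem_RQ (s : ℝ) (a b : ℤ) (y z : Pl) : z ∈ RQ s a b y ↔ idx s a b z = idx s a b y := by
  unfold RQ idx
  simp only [Set.mem_ofPred_eq, Prod.mk.injEq]

private theorem floor_iff (A : ℤ) (n : ℤ) (t : ℝ) :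
    ⌊t / (2 : ℝ) ^ A⌋ = n ↔ t ∈ Ico ((n : ℝ) * (2 : ℝ) ^ A) (((n : ℝ) + 1) * (2 : ℝ) ^ A) := by
  have h2 : (0 : ℝ) < (2 : ℝ) ^ A := zpow_pos (by norm_num) A
  rw [Int.floor_eq_iff, le_div_iff₀ h2, div_lt_iff₀ h2]
  rfl

private theorem nest {a a' : ℤ} (h : a ≤ a') {t t' : ℝ} (ht : ⌊t / (2 : ℝ) ^ a⌋ = ⌊t' / (2 : ℝ) ^ a⌋) :
    ⌊t / (2 : ℝ) ^ a'⌋ = ⌊t' / (2 : ℝ) ^ a'⌋ := by
  obtain ⟨j, rfl⟩ : ∃ j : ℕ, a' = a + (j : ℤ) := ⟨(a' - a).toNat, by omega⟩
  have h2 : (0 : ℝ) < (2 : ℝ) ^ a := zpow_pos (by norm_num) a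
  have e : ∀ t : ℝ, t / (2 : ℝ) ^ (a + (j : ℤ)) = (t / (2 : ℝ) ^ a) / ((2 ^ j : ℤ) : ℝ) := by
    intro t
    rw [zpow_add₀ (by norm_num), div_div]
    congr 1
    push_cast
    rw [zpow_natCast]
  rw [e, e]
  generalize t / (2 : ℝ) ^ a = x at ht
  generalize t' / (2 : ℝ) ^ a = x' at ht
  have hN : (0 : ℝ) < ((2 ^ j : ℤ) : ℝ) := by positivity
  generalize (2 ^ j : ℤ) = N at hN
  symm
  rw [Int.floor_eq_iff, le_div_iff₀ hN, div_lt_iff₀ hN]
  set q := ⌊x / (N : ℝ)⌋ with hq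
  have h3 : (q : ℝ) ≤ x / N := Int.floor_le _
  have h4 : x / N < q + 1 := Int.lt_floor_add_one _
  rw [le_div_iff₀ hN] at h3
  rw [div_lt_iff₀ hN] at h4
  have h5 : q * N ≤ ⌊x⌋ := by
    rw [Int.le_floor]
    push_cast
    exact h3
  have h6 : ⌊x⌋ < (q + 1) * N := by
    rw [Int.floor_lt]
    push_cast
    exact h4
  rw [ht] at h5 h6
  constructor
  · have h7 : ((q * N : ℤ) : ℝ) ≤ x' := Int.le_floor.1 h5
    push_cast at h7
    exact h7
  · have h7 : x' < (((q + 1) * N : ℤ) : ℝ) := Int.floor_lt.1 h6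
    push_cast at h7
    exact h7

theorem hLGR (hPT : StPT) : StLGR := by
  have hmeas : ∀ (s : ℝ) (a b : ℤ) (T : Set Pl), (∀ y ∈ T, RQ s a b y ⊆ T) → MeasurableSet T := by
    intro s a b T hT
    have h1 : T = idx s a b ⁻¹' (idx s a b '' T) := by
      ext z
      constructor
      · exact fun hz => ⟨z, hz, rfl⟩
      · rintro ⟨y, hy, hyz⟩
        exact hT y hy ((mem_RQ s a b y z).2 hyz.symm)
    rw [h1]
    exact idx_meas s a b (Set.to_countable _).measurableSet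
  refine ⟨fun s a b y => ⟨?_, ?_, ⟨rfl, rfl⟩⟩, ?_, ?_, ?_, hmeas⟩
  · refine hmeas s a b _ fun z hz w hw => ?_
    rw [mem_RQ] at *
    exact hw.trans hz
  · have hm : MeasurableSet (RQ s a b y) := by
      refine hmeas s a b _ fun z hz w hw => ?_
      rw [mem_RQ] at *
      exact hw.trans hz
    have h2a : (0 : ℝ) < (2 : ℝ) ^ a := zpow_pos (by norm_num) a
    have h2b : (0 : ℝ) < (2 : ℝ) ^ b := zpow_pos (by norm_num) b
    rw [← lintegral_indicator_one hm, hPT.2.2.2.2.2.1 _ (measurable_one.indicator hm)]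
    set n := ⌊y 0 / (2 : ℝ) ^ a⌋ with hn
    set m := ⌊pr s y / (2 : ℝ) ^ b⌋ with hmm
    have h1 : ∀ p : ℝ, ∫⁻ r : ℝ, (RQ s a b y).indicator 1 (pt p r) =
        (Ico ((n : ℝ) * (2 : ℝ) ^ a) (((n : ℝ) + 1) * (2 : ℝ) ^ a)).indicator
          (fun _ => ENNReal.ofReal ((2 : ℝ) ^ b)) p := by
      intro p
      have hmem : ∀ r : ℝ, pt p r ∈ RQ s a b y ↔
          p ∈ Ico ((n : ℝ) * (2 : ℝ) ^ a) (((n : ℝ) + 1) * (2 : ℝ) ^ a) ∧
          r ∈ Ico ((m : ℝ) * (2 : ℝ) ^ b + s * p) (((m : ℝ) + 1) * (2 : ℝ) ^ b + s * p) := by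
        intro r
        have e1 : pt p r ∈ RQ s a b y ↔
            (⌊(pt p r) 0 / (2 : ℝ) ^ a⌋ = n ∧ ⌊pr s (pt p r) / (2 : ℝ) ^ b⌋ = m) := Iff.rfl
        rw [e1, floor_iff, floor_iff]
        unfold pr
        rw [(hPT.1 p r).1, (hPT.1 p r).2]
        simp only [mem_Ico]
        constructor
        · rintro ⟨h1, h2, h3⟩
          exact ⟨h1, by linarith, by linarith⟩
        · rintro ⟨h1, h2, h3⟩
          exact ⟨h1, by linarith, by linarith⟩
      by_cases hp : p ∈ Ico ((n : ℝ) * (2 : ℝ) ^ a) (((n : ℝ) + 1) * (2 : ℝ) ^ a)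
      · rw [indicator_of_mem hp]
        have e2 : (fun r : ℝ => (RQ s a b y).indicator (1 : Pl → ℝ≥0∞) (pt p r)) =
            (Ico ((m : ℝ) * (2 : ℝ) ^ b + s * p) (((m : ℝ) + 1) * (2 : ℝ) ^ b + s * p)).indicator 1 := by
          funext r
          by_cases hr : r ∈ Ico ((m : ℝ) * (2 : ℝ) ^ b + s * p) (((m : ℝ) + 1) * (2 : ℝ) ^ b + s * p)
          · rw [indicator_of_mem hr, indicator_of_mem ((hmem r).2 ⟨hp, hr⟩)]
            rfl
          · rw [indicator_of_notMem hr, indicator_of_notMem (fun h => hr ((hmem r).1 h).2)]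
        rw [e2, lintegral_indicator_one measurableSet_Ico, Real.volume_Ico]
        congr 1
        ring
      · rw [indicator_of_notMem hp]
        have e2 : (fun r : ℝ => (RQ s a b y).indicator (1 : Pl → ℝ≥0∞) (pt p r)) = fun _ => 0 := by
          funext r
          rw [indicator_of_notMem (fun h => hp ((hmem r).1 h).1)]
        rw [e2, lintegral_zero]
    simp_rw [h1]
    rw [lintegral_indicator measurableSet_Ico, setLIntegral_const, Real.volume_Ico,
      ← ENNReal.ofReal_mul h2b.le]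
    congr 1
    rw [zpow_add₀ (by norm_num)]
    ring
  · intro s a b y z hz
    ext w
    rw [mem_RQ] at *
    rw [mem_RQ, hz]
  · intro s a b a' b' y ha hb z hz
    exact ⟨nest ha hz.1, nest hb hz.2⟩
  · intro s a b y z hs hz
    have h2a : (0 : ℝ) < (2 : ℝ) ^ a := zpow_pos (by norm_num) a
    have h2b : (0 : ℝ) < (2 : ℝ) ^ b := zpow_pos (by norm_num) b
    have h1 : |z 0 - y 0| < (2 : ℝ) ^ a := by
      have h := Int.abs_sub_lt_one_of_floor_eq_floor hz.1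
      rw [← sub_div, abs_div, abs_of_pos h2a, div_lt_one h2a] at h
      exact h
    have h2 : |pr s z - pr s y| < (2 : ℝ) ^ b := by
      have h := Int.abs_sub_lt_one_of_floor_eq_floor hz.2
      rw [← sub_div, abs_div, abs_of_pos h2b, div_lt_one h2b] at h
      exact h
    refine ⟨h1, h2, ?_⟩
    have e : z 1 - y 1 = s * (z 0 - y 0) + (pr s z - pr s y) := by
      unfold pr; ring
    rw [e]
    have h3 : |s * (z 0 - y 0)| ≤ |z 0 - y 0| := by
      rw [abs_mul]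
      nlinarith [abs_nonneg (z 0 - y 0), abs_nonneg s]
    calc |s * (z 0 - y 0) + (pr s z - pr s y)| ≤ |s * (z 0 - y 0)| + |pr s z - pr s y| := abs_add_le _ _
      _ < (2 : ℝ) ^ a + (2 : ℝ) ^ b := by linarith

end Pool.Agent.Helper4.RL
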