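import Pool.Agent.Helper20.RL.St1
import Pool.Agent.Helper68.LM.Asm

/-!
# Project RL: module LLD (local density)
-/

set_option autoImplicit false

open MeasureTheory Set Filter Topology
open scoped ENNReal RealInnerProductSpace

namespace Pool.Agent.Helper4.RL

open Pool.Agent.Helper20.RG Pool.Agent.Helper20.RL
open Pool.Agent.Helper68.LM (Pl BB Bd Av HL ft fm DQ StBBC StHLS aBBC aHLS)

private theorem pre_vol (y : Pl) (S : Set Pl) (hS : MeasurableSet S) :
    volume {w : Pl | y - (2 : ℝ) • w ∈ S} = ENNReal.ofReal (1 / 4) * volume S := by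
  have h1 : {w : Pl | y - (2 : ℝ) • w ∈ S} = (fun w : Pl => (2 : ℝ) • w) ⁻¹' ((fun v => y - v) ⁻¹' S) := rfl
  rw [h1, Measure.addHaar_preimage_smul _ (by norm_num : (2 : ℝ) ≠ 0)]
  have h2 : volume ((fun v : Pl => y - v) ⁻¹' S) = volume S :=
    (Measure.measurePreserving_sub_left (volume : Measure Pl) y).measure_preimage hS.nullMeasurableSet
  rw [h2]
  have h3 : Module.finrank ℝ Pl = 2 := by
    change Module.finrank ℝ (EuclideanSpace ℝ (Fin 2)) = 2
    simp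
  rw [h3]
  norm_num

private theorem ind_BB {F : Set Pl} (hF : BM F) : BB (F.indicator 1) := by
  obtain ⟨h1, h2⟩ := hF
  obtain ⟨R, hR⟩ := h2.subset_closedBall 0
  refine ⟨measurable_one.indicator h1, max R 1, fun x => ?_, fun x hx => ?_⟩
  · by_cases hx : x ∈ F
    · simp [hx]
    · simp [hx]
      
  · have : x ∉ F := fun h => by
      have := hR h
      rw [Metric.mem_closedBall, dist_zero_right] at this
      have := le_max_left R 1
      linarith
    simp [this]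

private theorem av_two (hPT : StPT) {F : Set Pl} {D : ℝ} (hF : MeasurableSet F)
    (hD : 0 < D) (h : ∀ y, volume (F ∩ Sq y 1) ≤ ENNReal.ofReal D) (y : Pl) :
    |Av bx 2 (F.indicator 1) y| ≤ D / 4 := by
  obtain ⟨-, -, -, -, -, -, -, hSq⟩ := hPT
  unfold Av bx
  have hm : MeasurableSet {w : Pl | y - (2 : ℝ) • w ∈ F} := by
    have : Measurable fun w : Pl => y - (2 : ℝ) • w := by fun_prop
    exact this hF
  have h1 : (fun w : Pl => F.indicator (1 : Pl → ℝ) (y - (2 : ℝ) • w)) =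
      ({w : Pl | y - (2 : ℝ) • w ∈ F}).indicator 1 := by
    funext w
    by_cases hw : y - (2 : ℝ) • w ∈ F
    · have hw' : w ∈ {w : Pl | y - (2 : ℝ) • w ∈ F} := hw
      rw [Set.indicator_of_mem hw, Set.indicator_of_mem hw']
      rfl
    · have hw' : w ∉ {w : Pl | y - (2 : ℝ) • w ∈ F} := hw
      rw [Set.indicator_of_notMem hw, Set.indicator_of_notMem hw']
  rw [h1, integral_indicator_one hm]
  rw [abs_of_nonneg measureReal_nonneg]
  rw [measureReal_def]
  apply ENNReal.toReal_le_of_le_ofReal (by positivity)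
  rw [Measure.restrict_apply hm]
  have h2 : {w : Pl | y - (2 : ℝ) • w ∈ F} ∩ Sq 0 (1 / 2) ⊆ {w : Pl | y - (2 : ℝ) • w ∈ F ∩ Sq y 1} := by
    rintro w ⟨hw1, hw2, hw3⟩
    refine ⟨hw1, ?_, ?_⟩
    · simp only [PiLp.sub_apply, PiLp.smul_apply, smul_eq_mul, PiLp.zero_apply, sub_zero] at hw2 ⊢
      rw [abs_le] at hw2 ⊢
      constructor <;> linarith [hw2.1, hw2.2]
    · simp only [PiLp.sub_apply, PiLp.smul_apply, smul_eq_mul, PiLp.zero_apply, sub_zero] at hw3 ⊢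
      rw [abs_le] at hw3 ⊢
      constructor <;> linarith [hw3.1, hw3.2]
  calc volume ({w : Pl | y - (2 : ℝ) • w ∈ F} ∩ Sq 0 (1 / 2))
      ≤ volume {w : Pl | y - (2 : ℝ) • w ∈ F ∩ Sq y 1} := measure_mono h2
    _ = ENNReal.ofReal (1 / 4) * volume (F ∩ Sq y 1) := pre_vol y _ (hF.inter (hSq y 1 (by norm_num)).1)
    _ ≤ ENNReal.ofReal (1 / 4) * ENNReal.ofReal D := by gcongr; exact h y
    _ = ENNReal.ofReal (D / 4) := by
        rw [← ENNReal.ofReal_mul (by norm_num)]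
        congr 1
        ring

/-- the average over a box is bounded by the maximal function -/
private theorem av_le_HL (hPT : StPT) {h : Pl → ℝ} (hh : BB h) (k : ℤ) (y : Pl) :
    ENNReal.ofReal (Av bx ((2 : ℝ) ^ k) h y) ≤ HL 1 h y := by
  obtain ⟨-, -, hn, -, -, -, -, -⟩ := hPT
  unfold Av bx HL
  have h1 : Sq (0 : Pl) (1 / 2) ⊆ Metric.closedBall (0 : Pl) 1 := by
    rintro w ⟨hw1, hw2⟩
    rw [Metric.mem_closedBall, dist_zero_right]
    have := (hn w).2.2.1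
    simp only [PiLp.zero_apply, sub_zero] at hw1 hw2
    linarith
  calc ENNReal.ofReal (∫ w in Sq (0 : Pl) (1 / 2), h (y - (2 : ℝ) ^ k • w))
      ≤ ENNReal.ofReal (∫ w in Sq (0 : Pl) (1 / 2), ‖h (y - (2 : ℝ) ^ k • w)‖) := by
        apply ENNReal.ofReal_le_ofReal
        exact le_trans (le_abs_self _) (by
          have := norm_integral_le_integral_norm (μ := volume.restrict (Sq (0 : Pl) (1 / 2)))
            (fun w => h (y - (2 : ℝ) ^ k • w))
          simpa using this)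
    _ ≤ ∫⁻ w in Sq (0 : Pl) (1 / 2), ‖h (y - (2 : ℝ) ^ k • w)‖ₑ := by
        have hm : Measurable fun w : Pl => h (y - (2 : ℝ) ^ k • w) :=
          hh.1.comp (by fun_prop)
        rw [integral_norm_eq_lintegral_enorm hm.aestronglyMeasurable]
        exact ENNReal.ofReal_toReal_le
    _ ≤ ∫⁻ w in Metric.closedBall (0 : Pl) 1, ‖h (y - (2 : ℝ) ^ k • w)‖ₑ :=
        lintegral_mono_set h1
    _ ≤ _ := le_iSup (fun k : ℤ => ∫⁻ w in Metric.closedBall (0 : Pl) 1, ‖h (y - (2 : ℝ) ^ k • w)‖ₑ) k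

theorem hLLD (hPT : StPT) (hMEA : StMEA) (hLGR : StLGR) (hLLP : StLLP) (hLLG : StLLG) : StLLD := by
  obtain ⟨C₁, hC₁, hG⟩ := hLLG
  obtain ⟨hHLm, hHL⟩ := aHLS
  obtain ⟨C₂, hC₂, hH⟩ := hHL 1 one_pos 2 (by norm_num)
  obtain ⟨hsub, -, hAvBB, -, hAvle, -, hAvadd⟩ := aBBC
  obtain ⟨⟨hbx1, hbx2, -⟩, hsg, -⟩ := hMEA
  refine ⟨512 ^ 2 * 64 * (C₂ + 1) * C₁, by nlinarith, ?_⟩
  intro u s ν a i F D θ Z Bf x hs hν hia hcount hBM hCtl hD hDθ hZ
  have hθ : 0 < θ := by linarith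
  set F' : Set Pl := F ∩ Sq x ((2 : ℝ) ^ (a + 3)) with hF'
  have h2a : (0 : ℝ) < (2 : ℝ) ^ a := by positivity
  have h1a : (1 : ℝ) ≤ (2 : ℝ) ^ a := one_le_pow₀ (by norm_num)
  have hSqm : MeasurableSet (Sq x ((2 : ℝ) ^ (a + 3))) := (hPT.2.2.2.2.2.2.2 x _ (by positivity)).1
  have hBM' : BM F' := ⟨hBM.1.inter hSqm, hBM.2.subset inter_subset_left⟩
  set f : Pl → ℝ := F'.indicator 1 with hf
  have hfBB : BB f := ind_BB hBM'
  have hC0 : ∀ y, volume (F' ∩ Sq y 1) ≤ ENNReal.ofReal D := by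
    intro y
    have h1 := hCtl y 0
    simp only [pow_zero, mul_one] at h1
    exact le_trans (measure_mono (inter_subset_inter_left _ inter_subset_left)) h1
  have hA2 : ∀ y, |Av bx 2 f y| ≤ D / 4 := fun y => av_two hPT hBM'.1 hD hC0 y
  have hA2BB : BB (Av bx 2 f) := hAvBB bx 1 1 2 f hbx1 (by norm_num) hfBB
  obtain ⟨hGB, hGs⟩ := hG u s ν a i f hs hν hia hcount hfBB
  set h : ℕ → Pl → ℝ := fun j => Av (sg (s j)) (8 * (2 : ℝ) ^ a) (fun y => f y - Av bx 2 f y) with hh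
  -- one direction
  have hone : ∀ j ∈ Finset.range (2 ^ u), volume ({y | ∃ z ∈ Z j, |y 0 - z 0| < (2 : ℝ) ^ a ∧
        |pr (s j) y - pr (s j) z| < (2 : ℝ) ^ (Bf j z)} ∩ Sq x (4 * (2 : ℝ) ^ a)) ≤
      ENNReal.ofReal ((512 / θ) ^ 2 * C₂) * ∫⁻ x, ‖h j x‖ₑ ^ 2 := by
    intro j hj
    rw [Finset.mem_range] at hj
    have hsj := hs j hj
    have hhB : BB (h j) := hGB j hj
    set g : Pl → ℝ := fun y => |h j y| with hg
    have hgB : BB g := by
      obtain ⟨h1, K, h2, h3⟩ := hhB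
      refine ⟨h1.abs, K, fun x => ?_, fun x hx => ?_⟩
      · rw [hg]; simp only [abs_abs]; exact h2 x
      · rw [hg]; simp only [h3 x hx, abs_zero]
    have hHg : HL 1 g = HL 1 (h j) := by
      funext y
      unfold HL
      simp only [hg, Real.enorm_abs]
    have hsubset : {y | ∃ z ∈ Z j, |y 0 - z 0| < (2 : ℝ) ^ a ∧
        |pr (s j) y - pr (s j) z| < (2 : ℝ) ^ (Bf j z)} ∩ Sq x (4 * (2 : ℝ) ^ a) ⊆
        {y | ENNReal.ofReal (θ / 512) ^ (2 : ℝ) ≤ HL 1 g y ^ (2 : ℝ)} := by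
      rintro y ⟨⟨z, hz, hz0, hz1⟩, hy0, hy1⟩
      obtain ⟨hb, hR⟩ := hZ j hj z hz
      set b := Bf j z with hbdef
      have h2b : (2 : ℝ) ^ b ≤ 1 := zpow_le_one_of_nonpos₀ (by norm_num) hb
      have h2b0 : (0 : ℝ) < (2 : ℝ) ^ b := by positivity
      have hyz1 : |y 1 - z 1| < 2 * (2 : ℝ) ^ a := by
        have e1 : y 1 - z 1 = (pr (s j) y - pr (s j) z) + s j * (y 0 - z 0) := by
          unfold pr; ring
        rw [e1]
        calc |(pr (s j) y - pr (s j) z) + s j * (y 0 - z 0)|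
            ≤ |pr (s j) y - pr (s j) z| + |s j * (y 0 - z 0)| := abs_add_le _ _
          _ ≤ |pr (s j) y - pr (s j) z| + 1 * |y 0 - z 0| := by
              rw [abs_mul]
              gcongr
          _ < 2 * (2 : ℝ) ^ a := by linarith
      have hcell : RQ (s j) (a : ℤ) b z ⊆ Sq x ((2 : ℝ) ^ (a + 3)) := by
        intro w hw
        obtain ⟨hw0, -, hw1⟩ := hLGR.2.2.2.1 (s j) a b z w hsj hw
        rw [zpow_natCast] at hw0 hw1
        rw [abs_lt] at hw0 hw1 hyz1 hz0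
        rw [abs_le] at hy0 hy1
        have e3 : (2 : ℝ) ^ (a + 3) = 8 * 2 ^ a := by rw [pow_add]; ring
        refine ⟨?_, ?_⟩
        · rw [e3, abs_le]
          constructor <;> linarith [hw0.1, hw0.2, hz0.1, hz0.2, hy0.1, hy0.2]
        · rw [e3, abs_le]
          constructor <;> linarith [hw1.1, hw1.2, hyz1.1, hyz1.2, hy1.1, hy1.2]
      have hR' : Rich F' (s j) a b (θ / 2) z := by
        unfold Rich at hR ⊢
        have : F' ∩ RQ (s j) (a : ℤ) b z = F ∩ RQ (s j) (a : ℤ) b z := by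
          rw [hF', inter_assoc, inter_eq_self_of_subset_right hcell]
        rw [this]
        exact hR
      have hP := hLLP (s j) a b F' (θ / 2) y z hsj (by omega) hBM' (by positivity)
        (by rw [zpow_natCast]; exact hz0) hz1 hR'
      rw [zpow_natCast] at hP
      -- linearity
      have hBdsg := (hsg (s j) hsj).1
      have hdBB : BB (fun y => f y - Av bx 2 f y) := hsub f _ hfBB hA2BB
      have hin : Av (sg (s j)) (8 * (2 : ℝ) ^ a) f =
          fun y => h j y + Av (sg (s j)) (8 * (2 : ℝ) ^ a) (Av bx 2 f) y := by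
        funext y'
        have e := hAvadd (sg (s j)) 1 1 (8 * (2 : ℝ) ^ a) (fun y => f y - Av bx 2 f y) (Av bx 2 f) y'
          hBdsg hdBB hA2BB
        rw [← e]
        congr 1
        funext y''
        ring
      have hA3 : ∀ y, |Av (sg (s j)) (8 * (2 : ℝ) ^ a) (Av bx 2 f) y| ≤ 1 * (D / 4) :=
        hAvle (sg (s j)) 1 1 (8 * (2 : ℝ) ^ a) (Av bx 2 f) (D / 4) hBdsg (by norm_num) hA2
      have hA3BB : BB (Av (sg (s j)) (8 * (2 : ℝ) ^ a) (Av bx 2 f)) :=
        hAvBB _ 1 1 _ _ hBdsg (by positivity) hA2BB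
      have hA4 := hAvle bx 1 1 (8 * (2 : ℝ) ^ b) _ (1 * (D / 4)) hbx1 (by norm_num) hA3 y
      have hout := hAvadd bx 1 1 (8 * (2 : ℝ) ^ b) (h j) (Av (sg (s j)) (8 * (2 : ℝ) ^ a) (Av bx 2 f)) y
        hbx1 hhB hA3BB
      rw [← hf, hin, hout] at hP
      have hlow : θ / 512 ≤ Av bx (8 * (2 : ℝ) ^ b) (h j) y := by
        have := (abs_le.1 hA4).2
        linarith
      have e8 : 8 * (2 : ℝ) ^ b = (2 : ℝ) ^ (b + 3) := by
        rw [zpow_add₀ (by norm_num)]
        norm_num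
        ring
      rw [e8] at hlow
      have hfin : ENNReal.ofReal (θ / 512) ≤ HL 1 g y := by
        rw [hHg]
        exact le_trans (ENNReal.ofReal_le_ofReal hlow) (av_le_HL hPT hhB _ y)
      exact ENNReal.rpow_le_rpow hfin (by norm_num)
    have hche := mul_meas_ge_le_lintegral (μ := (volume : Measure Pl)) ((hHLm 1 g hgB).pow_const (2 : ℝ))
      (ENNReal.ofReal (θ / 512) ^ (2 : ℝ))
    have hH' := hH g hgB (fun x => abs_nonneg _)
    have hθ0 : ENNReal.ofReal (θ / 512) ^ (2 : ℝ) = ENNReal.ofReal ((θ / 512) ^ 2) := by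
      rw [ENNReal.ofReal_rpow_of_pos (by positivity)]
      norm_num
    rw [hθ0] at hche hsubset
    have hlast : ∫⁻ x, ENNReal.ofReal (g x) ^ (2 : ℝ) = ∫⁻ x, ‖h j x‖ₑ ^ 2 := by
      apply lintegral_congr
      intro y
      rw [hg]
      simp only
      rw [← Real.enorm_eq_ofReal_abs]
      norm_num
    rw [hlast] at hH'
    set S := {y | ∃ z ∈ Z j, |y 0 - z 0| < (2 : ℝ) ^ a ∧
        |pr (s j) y - pr (s j) z| < (2 : ℝ) ^ (Bf j z)} ∩ Sq x (4 * (2 : ℝ) ^ a) with hS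
    set I := ∫⁻ x, ‖h j x‖ₑ ^ 2 with hI
    have h5 : ENNReal.ofReal ((θ / 512) ^ 2) * volume S ≤ ENNReal.ofReal C₂ * I :=
      le_trans (mul_le_mul_right (measure_mono hsubset) _) (le_trans hche hH')
    have h6 : ENNReal.ofReal ((512 / θ) ^ 2) * ENNReal.ofReal ((θ / 512) ^ 2) = 1 := by
      rw [← ENNReal.ofReal_mul (by positivity), ← ENNReal.ofReal_one]
      congr 1
      field_simp
    calc volume S = ENNReal.ofReal ((512 / θ) ^ 2) * ENNReal.ofReal ((θ / 512) ^ 2) * volume S := by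
          rw [h6, one_mul]
      _ = ENNReal.ofReal ((512 / θ) ^ 2) * (ENNReal.ofReal ((θ / 512) ^ 2) * volume S) := by
          rw [mul_assoc]
      _ ≤ ENNReal.ofReal ((512 / θ) ^ 2) * (ENNReal.ofReal C₂ * I) := mul_le_mul_right h5 _
      _ = ENNReal.ofReal ((512 / θ) ^ 2 * C₂) * I := by
          rw [ENNReal.ofReal_mul (by positivity), mul_assoc]
  have hvol : ∫⁻ x, ‖f x‖ₑ ^ 2 = volume F' := by
    have : (fun x => ‖f x‖ₑ ^ 2) = F'.indicator 1 := by
      funext y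
      rw [hf]
      by_cases hy : y ∈ F'
      · simp [hy]
      · simp [hy]
    rw [this, lintegral_indicator_one hBM'.1]
  have hvolF : volume F' ≤ ENNReal.ofReal (D * (4 : ℝ) ^ (a + 3)) := hCtl x (a + 3)
  calc ∑ j ∈ Finset.range (2 ^ u), volume ({y | ∃ z ∈ Z j, |y 0 - z 0| < (2 : ℝ) ^ a ∧
        |pr (s j) y - pr (s j) z| < (2 : ℝ) ^ (Bf j z)} ∩ Sq x (4 * (2 : ℝ) ^ a))
      ≤ ∑ j ∈ Finset.range (2 ^ u), ENNReal.ofReal ((512 / θ) ^ 2 * C₂) * ∫⁻ x, ‖h j x‖ₑ ^ 2 :=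
        Finset.sum_le_sum hone
    _ = ENNReal.ofReal ((512 / θ) ^ 2 * C₂) * ∑ j ∈ Finset.range (2 ^ u), ∫⁻ x, ‖h j x‖ₑ ^ 2 := by
        rw [Finset.mul_sum]
    _ ≤ ENNReal.ofReal ((512 / θ) ^ 2 * C₂) * (ENNReal.ofReal (C₁ * ν) *
          ENNReal.ofReal (D * (4 : ℝ) ^ (a + 3))) := by
        apply mul_le_mul_right
        refine le_trans hGs ?_
        rw [hvol]
        exact mul_le_mul_right hvolF _
    _ = ENNReal.ofReal ((512 / θ) ^ 2 * C₂ * (C₁ * ν * (D * (4 : ℝ) ^ (a + 3)))) := by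
        rw [← ENNReal.ofReal_mul (by positivity), ← ENNReal.ofReal_mul (by positivity)]
    _ ≤ ENNReal.ofReal (512 ^ 2 * 64 * (C₂ + 1) * C₁ * ν * D / θ ^ 2 * (4 : ℝ) ^ a) := by
        apply ENNReal.ofReal_le_ofReal
        have e : 512 ^ 2 * 64 * (C₂ + 1) * C₁ * ν * D / θ ^ 2 * (4 : ℝ) ^ a =
            (512 / θ) ^ 2 * (C₂ + 1) * (C₁ * ν * (D * (4 : ℝ) ^ (a + 3))) := by
          rw [pow_add]
          field_simp
          ring
        rw [e]
        gcongr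
        linarith

end Pool.Agent.Helper4.RL
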